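import Mathlib

set_option autoImplicit false

namespace Pool.Agent.Results.MP_7dcdb2_al.NoExtension

open Matrix Quaternion

/-- the real number `[x, x] = x* H x` -/
noncomputable def form {n : ℕ} (H : Matrix (Fin n) (Fin n) ℍ[ℝ]) (x : Fin n → ℍ[ℝ]) : ℝ :=
  (star x ⬝ᵥ (H *ᵥ x)).re

/-- the matrix `I_p ⊕ (-I_q) ⊕ 0` of size `n` -/
noncomputable def sig (n p q : ℕ) : Matrix (Fin n) (Fin n) ℍ[ℝ] :=
  diagonal fun i => if (i : ℕ) < p then 1 else if (i : ℕ) < p + q then -1 else 0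

noncomputable def H3 : Matrix (Fin 3) (Fin 3) ℍ[ℝ] := sig 3 1 1

noncomputable def A3 : Matrix (Fin 3) (Fin 3) ℍ[ℝ] := !![0, 0, 1; 0, 0, 1; 0, 0, 0]

theorem form_H3 (x : Fin 3 → ℍ[ℝ]) : form H3 x = normSq (x 0) - normSq (x 1) := by
  simp [form, H3, sig, dotProduct, Fin.sum_univ_three, mulVec_diagonal, normSq_def']
  ring

theorem A3_mulVec (x : Fin 3 → ℍ[ℝ]) : A3 *ᵥ x = ![x 2, x 2, 0] := by
  ext1 i
  fin_cases i <;> simp [A3, mulVec, dotProduct, Fin.sum_univ_three]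

/-- A singular hermitian `H` with inertia `(p, q, ν)`, an `H`-plus-matrix `A` and an `A`-invariant
`H`-nonnegative right subspace `M₀` lying in no `A`-invariant `H`-nonnegative right subspace of
dimension `p + ν`. -/
theorem result :
    ∃ (n p q ν : ℕ) (H A S : Matrix (Fin n) (Fin n) ℍ[ℝ])
      (M₀ : Submodule ℍ[ℝ]ᵐᵒᵖ (Fin n → ℍ[ℝ])),
      Hᴴ = H ∧ p + q + ν = n ∧ 0 < ν ∧ IsUnit S ∧ Sᴴ * H * S = sig n p q ∧
      (∀ x, 0 ≤ form H x → 0 ≤ form H (A *ᵥ x)) ∧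
      (∀ x ∈ M₀, 0 ≤ form H x) ∧ (∀ x ∈ M₀, A *ᵥ x ∈ M₀) ∧
      ¬ ∃ M : Submodule ℍ[ℝ]ᵐᵒᵖ (Fin n → ℍ[ℝ]), M₀ ≤ M ∧ (∀ x ∈ M, 0 ≤ form H x) ∧
        (∀ x ∈ M, A *ᵥ x ∈ M) ∧ Module.finrank ℍ[ℝ]ᵐᵒᵖ M = p + ν := by
  let e : Fin 3 → ℍ[ℝ] := ![1, 0, 0]
  have hspan : ∀ x : Fin 3 → ℍ[ℝ], x ∈ Submodule.span ℍ[ℝ]ᵐᵒᵖ {e} ↔ x 1 = 0 ∧ x 2 = 0 := by
    intro x
    rw [Submodule.mem_span_singleton]
    constructor
    · rintro ⟨a, rfl⟩
      simp [e]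
    · rintro ⟨h1, h2⟩
      refine ⟨MulOpposite.op (x 0), ?_⟩
      ext1 i
      fin_cases i <;> simp [e, h1, h2]
  refine ⟨3, 1, 1, 1, H3, A3, 1, Submodule.span _ {e}, ?_, rfl, one_pos, isUnit_one, ?_, ?_, ?_,
    ?_, ?_⟩
  · ext1 i j
    fin_cases i <;> fin_cases j <;> simp [H3, sig, conjTranspose_apply, diagonal]
  · simp [H3]
  · intro x _
    rw [form_H3, A3_mulVec]
    simp
  · intro x hx
    rw [form_H3, ((hspan x).1 hx).1]
    simp [normSq_nonneg]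
  · intro x hx
    rw [A3_mulVec, hspan, ((hspan x).1 hx).2]
    simp
  · rintro ⟨M, h0, hM, hA, hd⟩
    have h1 : ∀ x ∈ M, x 1 = 0 := by
      intro x hx
      have hy : (![x 0, 0, 0] : Fin 3 → ℍ[ℝ]) ∈ M := h0 ((hspan _).2 (by simp))
      have := hM _ (M.sub_mem hx hy)
      rw [form_H3] at this
      simp at this
      exact this
    have h2 : ∀ x ∈ M, x 2 = 0 := by
      intro x hx
      have := h1 _ (hA x hx)
      rw [A3_mulVec] at this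
      simpa using this
    have hle : M ≤ Submodule.span ℍ[ℝ]ᵐᵒᵖ {e} := fun x hx => (hspan x).2 ⟨h1 x hx, h2 x hx⟩
    have he : e ≠ 0 := by
      intro h
      have := congrFun h 0
      simp [e] at this
    have := Submodule.finrank_mono hle
    rw [finrank_span_singleton he, hd] at this
    omega

end Pool.Agent.Results.MP_7dcdb2_al.NoExtension
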